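import Mathlib
import Pool.Agent.Y298.GA.Stm

/-!
# Project GA, (PA): passage near the critical value for perturbations `z ^ d + q z` (helper497;
adapted from the file of helper434)
-/

set_option autoImplicit false

open Set Filter Metric MeasureTheory

namespace Pool.Agent.Y497.GA

open Pool.Agent.TH279.MD Pool.Agent.Y298.SH Pool.Agent.Y298.SH.CD Pool.Agent.Y298.GA
open Pool.Agent.Y298.SH.CE (MG RR geom_part)
open Pool.Agent.W746.LD (Univ KC exists_KC)

/-- **Passage near the critical value.** -/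
theorem pa : Pool.Agent.Y298.GA.S_PA := by
  intro d C₁ lam θ hd hC₁ hlam hθ
  have hdR : (2 : ℝ) ≤ d := by exact_mod_cast hd
  set SP : ℝ := C₁ * (1 / (1 - 1 / lam)) with hSP
  have hl0 : 0 < lam := by linarith
  have hil : 0 < 1 / lam := by positivity
  have hil1 : 1 / lam < 1 := by rw [div_lt_one hl0]; exact hlam
  have hSP0 : 0 < SP := by
    have : 0 < 1 - 1 / lam := by linarith
    positivity
  set Ca : ℝ := 2 * (1 + SP) with hCa
  have hCa1 : 1 ≤ Ca := by rw [hCa]; linarith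
  have hCa0 : 0 < Ca := by linarith
  have hiθ : 0 < 1 / θ := by positivity
  have hiθ1 : 1 / θ < 1 := by rw [div_lt_one (by linarith)]; exact hθ
  set Sθ : ℝ := 1 / (1 - 1 / θ) with hSθ
  have hSθ0 : 0 < Sθ := by
    have : 0 < 1 - 1 / θ := by linarith
    positivity
  have hd0 : (0 : ℝ) < d := by linarith
  have hC10 : 0 < C₁ := by linarith
  set B2 : ℝ := 2 ^ (d + 9) * d * C₁ * Sθ with hB2
  have hB20 : 0 < B2 := by positivity
  have hB2' : 16 * C₁ * Sθ ≤ B2 := by
    have h1 : (1 : ℝ) ≤ 2 ^ d := one_le_pow₀ (by norm_num)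
    have h2 : (16 : ℝ) ≤ 2 ^ (d + 9) * d := by
      rw [pow_add]
      nlinarith
    rw [hB2, mul_assoc, mul_assoc (2 ^ (d + 9) * (d : ℝ))]
    exact mul_le_mul_of_nonneg_right h2 (by positivity)
  set B : ℝ := Ca * (1 + 16 * d * Sθ) + B2 with hB
  have hB0 : 0 < B := by positivity
  refine ⟨B, Ca, hCa1, ?_, ?_, ?_⟩
  · rw [hB]
    have : 0 ≤ 16 * d * Sθ := by positivity
    nlinarith
  · rw [hB]
    have : 0 ≤ Ca * (1 + 16 * d * Sθ) := by positivity
    linarith
  intro c₀ h q s k hs hs1 hqd hqn hqd' hk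
  have hP := h.Pd_pos
  have hθ0 : 0 < θ := by linarith
  -- the sequences
  set b : ℕ → ℝ := fun i => Ca / (B * θ ^ i) with hb
  have hb0 : ∀ i, 0 < b i := fun i => by positivity
  set g : ℕ → ℝ := fun i => 2 * C₁ / (B * θ ^ i) with hg
  have hg0 : ∀ i, 0 < g i := fun i => by positivity
  set t : ℕ → ℝ := fun i => 2 * d * b i + g i with ht
  have ht0 : ∀ i, 0 < t i := fun i => by
    have := hb0 i
    have := hg0 i
    rw [ht]
    positivity
  have hgs : ∀ n, ∑ i ∈ Finset.range n, g i ≤ 1 / 8 := by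
    intro n
    have h1 : ∀ i, g i = 2 * C₁ / B * (1 / θ) ^ i := by
      intro i
      rw [hg, one_div, inv_pow]
      field_simp
    simp only [h1]
    rw [← Finset.mul_sum]
    have h2 := geom_part hiθ hiθ1 n
    calc 2 * C₁ / B * ∑ i ∈ Finset.range n, (1 / θ) ^ i ≤ 2 * C₁ / B * Sθ := by gcongr
      _ = 2 * C₁ * Sθ / B := by ring
      _ ≤ 1 / 8 := by
          rw [div_le_div_iff₀ (by positivity) (by norm_num)]
          have : 0 < Ca * (1 + 16 * d * Sθ) := by positivity
          rw [hB]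
          linarith
  have hbs' : ∀ n, ∑ i ∈ Finset.range n, 2 * d * b i ≤ 1 / 8 := by
    intro n
    have h1 : ∀ i, 2 * d * b i = 2 * d * (Ca / B) * (1 / θ) ^ i := by
      intro i
      rw [hb, one_div, inv_pow]
      field_simp
    simp only [h1]
    rw [← Finset.mul_sum]
    have h2 := geom_part hiθ hiθ1 n
    calc 2 * d * (Ca / B) * ∑ i ∈ Finset.range n, (1 / θ) ^ i ≤ 2 * d * (Ca / B) * Sθ := by gcongr
      _ = 2 * d * Ca * Sθ / B := by ring
      _ ≤ 1 / 8 := by
          rw [hB, div_le_div_iff₀ (by positivity) (by norm_num)]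
          nlinarith
  have hbs : ∀ n, ∑ i ∈ Finset.range n, t i ≤ 1 / 4 := by
    intro n
    rw [ht, Finset.sum_add_distrib]
    linarith [hgs n, hbs' n]
  have hbd : ∀ j, d * b j ≤ 1 / 4 := by
    intro j
    have h1 := hbs' (j + 1)
    rw [Finset.sum_range_succ] at h1
    have h2 : 0 ≤ ∑ i ∈ Finset.range j, 2 * d * b i := Finset.sum_nonneg fun i _ => by
      have := hb0 i; positivity
    linarith
  set E : ℕ → ℝ := fun j => Real.exp (∑ i ∈ Finset.range j, t i) with hE
  have hE1 : ∀ j, 1 ≤ E j := fun j => Real.one_le_exp (Finset.sum_nonneg fun i _ => (ht0 i).le)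
  have hE2 : ∀ j, E j ≤ 2 := by
    intro j
    have h1 : ∑ i ∈ Finset.range j, t i ≤ 1 / 2 := by linarith [hbs j]
    have h2 : Real.exp (1 / 2) ≤ 2 := by
      have h3 := Real.exp_one_lt_d9
      have h5 : Real.exp (1 / 2) ^ 2 = Real.exp 1 := by
        rw [← Real.exp_nat_mul]
        norm_num
      have h6 := Real.exp_pos (1 / 2)
      nlinarith
    exact (Real.exp_le_exp.mpr h1).trans h2
  have hE3' : ∀ j, E j * (1 + t j) ≤ E (j + 1) := by
    intro j
    rw [hE]
    beta_reduce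
    rw [Finset.sum_range_succ, Real.exp_add]
    gcongr
    have := Real.add_one_le_exp (t j)
    linarith
  have htb : ∀ j, 2 * d * b j ≤ t j := fun j => by
    have := hg0 j
    rw [ht]
    beta_reduce
    linarith
  have hE3 : ∀ j, E j * (1 + 2 * d * b j) ≤ E (j + 1) := by
    intro j
    refine le_trans ?_ (hE3' j)
    have := hE1 j
    have := htb j
    gcongr
  set S : ℕ → ℝ := fun j => ∑ i ∈ Finset.range (j + 1), 1 / Pd d c₀ i with hS
  have hS0 : ∀ j, 0 ≤ S j := fun j => Finset.sum_nonneg fun i _ => by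
    have := hP i; positivity
  have hSb : ∀ j, S j ≤ SP := by
    intro j
    have h1 : ∀ i, 1 / Pd d c₀ i ≤ C₁ * (1 / lam) ^ i := by
      intro i
      have := h.exp i
      have h2 := hP i
      rw [one_div lam, inv_pow, ← div_eq_mul_inv, div_le_div_iff₀ h2 (by positivity)]
      linarith
    calc S j ≤ ∑ i ∈ Finset.range (j + 1), C₁ * (1 / lam) ^ i :=
          Finset.sum_le_sum fun i _ => h1 i
      _ = C₁ * ∑ i ∈ Finset.range (j + 1), (1 / lam) ^ i := by rw [Finset.mul_sum]
      _ ≤ SP := by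
          rw [hSP]
          gcongr
          exact geom_part hil hil1 _
  have hcoef : ∀ j, s * (1 + S j) * E j * Pd d c₀ j ≤ Ca * s * Pd d c₀ j := by
    intro j
    have := hP j
    have h1 : (1 + S j) * E j ≤ (1 + SP) * 2 :=
      mul_le_mul (by linarith [hSb j]) (hE2 j) (by linarith [hE1 j]) (by linarith)
    calc s * (1 + S j) * E j * Pd d c₀ j = s * Pd d c₀ j * ((1 + S j) * E j) := by ring
      _ ≤ s * Pd d c₀ j * ((1 + SP) * 2) := by gcongr
      _ = _ := by rw [hCa]; ring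
  have hdelta : ∀ j < k, Ca * s * Pd d c₀ j ≤ b j * ‖zz d c₀ j‖ := by
    intro j hj
    have h1 := hk j hj
    rw [hb]
    beta_reduce
    rw [div_mul_eq_mul_div, le_div_iff₀ (by positivity)]
    calc Ca * s * Pd d c₀ j * (B * θ ^ j) = Ca * (B * θ ^ j * s * Pd d c₀ j) := by ring
      _ ≤ _ := by gcongr
  set Q : ℂ → ℂ := fun z => z ^ d + q z with hQ
  have hfd : ∀ x : ℂ, Q x = x ^ d + q x := fun x => rfl
  have H : Cv c₀ s 0 0 1 (fun _ z => q z) := by
    refine ⟨?_, fun w _ z hz => hqn z hz, fun w _ z hz => hqd' z hz, fun w _ z _ => by simp⟩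
    exact hqd.comp differentiable_snd.differentiableOn fun p hp => hp.2
  have hd1 : ((d - 1 : ℕ) : ℝ) ≤ d := by
    have : d - 1 ≤ d := by omega
    exact_mod_cast this
  -- closeness
  have I1 : ∀ x ∈ ball c₀ (2 * s), ∀ j ≤ k,
      ‖Q^[j] x - zz d c₀ j‖ ≤ s * (1 + S j) * E j * Pd d c₀ j := by
    intro x hx j
    induction j with
    | zero =>
      intro _
      have h1 : S 0 = 1 := by rw [hS]; simp [Pd_zero]
      have h2 : E 0 = 1 := by rw [hE]; simp
      rw [h1, h2, Pd_zero, Function.iterate_zero, id_eq, zz_zero]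
      rw [mem_ball, dist_eq_norm] at hx
      linarith
    | succ j ih =>
      intro hj
      have ih' := ih (by omega)
      have h1 : ‖Q^[j] x - zz d c₀ j‖ ≤ b j * ‖zz d c₀ j‖ :=
        ih'.trans ((hcoef j).trans (hdelta j (by omega)))
      rw [Function.iterate_succ_apply', hfd, zz_succ]
      set u := Q^[j] x
      set z := zz d c₀ j
      have h2 : u ^ d + q u - (z ^ d + c₀) = (u ^ d - z ^ d) + (q u - c₀) := by ring
      have hbj := hb0 j
      have hz0 := norm_nonneg z
      have hum : ‖u‖ ≤ ‖z‖ * (1 + b j) := by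
        calc ‖u‖ = ‖(u - z) + z‖ := by congr 1; ring
          _ ≤ ‖u - z‖ + ‖z‖ := norm_add_le _ _
          _ ≤ _ := by linarith
      have hzm : ‖z‖ ≤ ‖z‖ * (1 + b j) := by nlinarith
      have hu8 : u ∈ ball (0 : ℂ) 8 := by
        rw [mem_ball_zero_iff]
        have h8 : ‖z‖ ≤ 2 := h.bd j
        have h9 := hbd j
        have h10 : b j ≤ 1 := by nlinarith
        nlinarith
      have hcq : ‖q u - c₀‖ ≤ s := hqn u hu8
      have h3 := pow_sub_le u z hum hzm d
      have h3' : (1 + b j) ^ (d - 1) ≤ 1 + 2 * d * b j := by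
        have h4 : ((d - 1 : ℕ) : ℝ) * b j ≤ 1 / 2 := by
          have := hbd j
          nlinarith
        have h5 := pow_up hbj.le h4
        nlinarith
      have hPj := hP j
      have hPj1 := hP (j + 1)
      calc ‖u ^ d + q u - (z ^ d + c₀)‖ ≤ d * (‖z‖ * (1 + b j)) ^ (d - 1) * ‖u - z‖ +
              ‖q u - c₀‖ := by
            rw [h2]
            exact (norm_add_le _ _).trans (add_le_add h3 le_rfl)
        _ ≤ d * (‖z‖ ^ (d - 1) * (1 + 2 * d * b j)) * (s * (1 + S j) * E j * Pd d c₀ j) + s := by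
            have hEj := hE1 j
            have hSj := hS0 j
            rw [mul_pow]
            gcongr
        _ = s * (1 + S j) * (E j * (1 + 2 * d * b j)) * Pd d c₀ (j + 1) + s := by
            rw [Pd_succ]
            ring
        _ ≤ s * (1 + S j) * E (j + 1) * Pd d c₀ (j + 1) +
            s * (1 / Pd d c₀ (j + 1)) * E (j + 1) * Pd d c₀ (j + 1) := by
            have hSj := hS0 j
            have h4 : s ≤ s * (1 / Pd d c₀ (j + 1)) * E (j + 1) * Pd d c₀ (j + 1) := by
              have h5 : s * (1 / Pd d c₀ (j + 1)) * E (j + 1) * Pd d c₀ (j + 1) =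
                  s * E (j + 1) := by
                field_simp
              rw [h5]
              nlinarith [hE1 (j + 1)]
            have h6 := hE3 j
            gcongr
        _ = s * (1 + S (j + 1)) * E (j + 1) * Pd d c₀ (j + 1) := by
            have h7 : S (j + 1) = S j + 1 / Pd d c₀ (j + 1) := by
              rw [hS]
              beta_reduce
              rw [Finset.sum_range_succ]
            rw [h7]
            ring
  have I1' : ∀ x ∈ ball c₀ (2 * s), ∀ j < k, ‖Q^[j] x - zz d c₀ j‖ ≤ b j * ‖zz d c₀ j‖ :=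
    fun x hx j hj => (I1 x hx j hj.le).trans ((hcoef j).trans (hdelta j hj))
  have I8 : ∀ x ∈ ball c₀ (2 * s), ∀ j < k, Q^[j] x ∈ ball (0 : ℂ) 8 := by
    intro x hx j hj
    have h1 := I1' x hx j hj
    rw [mem_ball_zero_iff]
    have h8 : ‖zz d c₀ j‖ ≤ 2 := h.bd j
    have h9 := hbd j
    have hbj := hb0 j
    have h10 : b j ≤ 1 := by nlinarith
    have hz0 := norm_nonneg (zz d c₀ j)
    calc ‖Q^[j] x‖ = ‖(Q^[j] x - zz d c₀ j) + zz d c₀ j‖ := by congr 1; ring
      _ ≤ ‖Q^[j] x - zz d c₀ j‖ + ‖zz d c₀ j‖ := norm_add_le _ _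
      _ < 8 := by nlinarith
  have hder : ∀ x ∈ ball c₀ (2 * s), ∀ j < k, deriv (Q^[j + 1]) x =
      (d * (Q^[j] x) ^ (d - 1) + deriv q (Q^[j] x)) * deriv (Q^[j]) x := by
    intro x hx j hj
    exact H.derivF d (w := 0) (x := x) (n := j) (mem_ball_self one_pos)
      fun i hi => I8 x hx i (by omega)
  -- the perturbation is small
  have hsg : ∀ j < k, s ≤ g j * (d * ‖zz d c₀ j‖ ^ (d - 1)) := by
    intro j hj
    have h1 := hk j hj
    have h2 : ‖zz d c₀ j‖ ≤ 2 := h.bd j
    have h3 := h.exp (j + 1)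
    have h4 : 1 ≤ lam ^ (j + 1) := one_le_pow₀ hlam.le
    have hPj := hP j
    rw [Pd_succ] at h3
    have h5 : B * θ ^ j * s * Pd d c₀ j ≤ 2 * C₁ * (d * ‖zz d c₀ j‖ ^ (d - 1)) * Pd d c₀ j := by
      calc B * θ ^ j * s * Pd d c₀ j ≤ 2 := h1.trans h2
        _ ≤ 2 * (C₁ * (d * ‖zz d c₀ j‖ ^ (d - 1) * Pd d c₀ j)) := by linarith
        _ = _ := by ring
    have h6 : B * θ ^ j * s ≤ 2 * C₁ * (d * ‖zz d c₀ j‖ ^ (d - 1)) :=
      le_of_mul_le_mul_right h5 hPj
    rw [hg]
    beta_reduce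
    rw [div_mul_eq_mul_div, le_div_iff₀ (by positivity)]
    linarith
  -- derivatives
  have I2 : ∀ x ∈ ball c₀ (2 * s), ∀ j ≤ k, (1 - ∑ i ∈ Finset.range j, t i) * Pd d c₀ j ≤
      ‖deriv (Q^[j]) x‖ := by
    intro x hx j
    induction j with
    | zero =>
      intro _
      simp [Pd_zero]
    | succ j ih =>
      intro hj
      have ih' := ih (by omega)
      have h1 := I1' x hx j (by omega)
      have hsgj := hsg j (by omega)
      have hu8 := I8 x hx j (by omega)
      rw [hder x hx j (by omega), norm_mul, Finset.sum_range_succ, Pd_succ]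
      set u := Q^[j] x
      set z := zz d c₀ j
      have hbj := hb0 j
      have hbdj := hbd j
      have hb1 : b j ≤ 1 := by nlinarith
      have hq' : ‖deriv q u‖ ≤ s := hqd' u hu8
      have h2 : ‖z‖ * (1 - b j) ≤ ‖u‖ := by
        have h3 : ‖z‖ ≤ ‖u‖ + ‖u - z‖ := by
          calc ‖z‖ = ‖u - (u - z)‖ := by congr 1; ring
            _ ≤ _ := norm_sub_le _ _
        linarith
      have hs1 := hbs (j + 1)
      rw [Finset.sum_range_succ] at hs1
      have hs2 : 0 ≤ ∑ i ∈ Finset.range j, t i := Finset.sum_nonneg fun i _ => (ht0 i).le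
      set SS := ∑ i ∈ Finset.range j, t i
      have hPj := hP j
      have hz0 := norm_nonneg z
      have h1b : 0 ≤ 1 - b j := by linarith
      have h3 : ‖z‖ ^ (d - 1) * (1 - 2 * d * b j) ≤ ‖u‖ ^ (d - 1) := by
        have h4 := pow_low hb1 (d - 1)
        have h5 : 1 - 2 * d * b j ≤ (1 - b j) ^ (d - 1) := by
          refine le_trans ?_ h4
          nlinarith
        calc ‖z‖ ^ (d - 1) * (1 - 2 * d * b j) ≤ ‖z‖ ^ (d - 1) * (1 - b j) ^ (d - 1) := by gcongr
          _ = (‖z‖ * (1 - b j)) ^ (d - 1) := by rw [mul_pow]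
          _ ≤ _ := by gcongr
      have h6 : 0 < t j := ht0 j
      have h4 : 0 ≤ 1 - t j := by linarith
      have h5 : 0 ≤ 1 - SS := by linarith
      have hzd : 0 ≤ d * ‖z‖ ^ (d - 1) := by positivity
      have h7 : d * ‖z‖ ^ (d - 1) * (1 - t j) ≤ ‖(d : ℂ) * u ^ (d - 1) + deriv q u‖ := by
        have e1 : ‖(d : ℂ) * u ^ (d - 1)‖ = d * ‖u‖ ^ (d - 1) := by
          rw [norm_mul, norm_pow, Complex.norm_natCast]
        have e2 : ‖(d : ℂ) * u ^ (d - 1)‖ ≤ ‖(d : ℂ) * u ^ (d - 1) + deriv q u‖ + ‖deriv q u‖ := by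
          calc ‖(d : ℂ) * u ^ (d - 1)‖ = ‖((d : ℂ) * u ^ (d - 1) + deriv q u) - deriv q u‖ := by
                congr 1; ring
            _ ≤ _ := norm_sub_le _ _
        have e3 : d * (‖z‖ ^ (d - 1) * (1 - 2 * d * b j)) ≤ d * ‖u‖ ^ (d - 1) := by gcongr
        have e4 : d * ‖z‖ ^ (d - 1) * (1 - t j) = d * (‖z‖ ^ (d - 1) * (1 - 2 * d * b j)) -
            g j * (d * ‖z‖ ^ (d - 1)) := by
          rw [ht]
          ring
        rw [e4]
        linarith
      calc (1 - (SS + t j)) * (d * ‖z‖ ^ (d - 1) * Pd d c₀ j)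
          ≤ ((1 - SS) * (1 - t j)) * (d * ‖z‖ ^ (d - 1) * Pd d c₀ j) := by
            gcongr
            nlinarith
        _ = (d * ‖z‖ ^ (d - 1) * (1 - t j)) * ((1 - SS) * Pd d c₀ j) := by ring
        _ ≤ ‖(d : ℂ) * u ^ (d - 1) + deriv q u‖ * ‖deriv (Q^[j]) x‖ := by
            apply mul_le_mul h7 ih' (by positivity) (norm_nonneg _)
  -- derivatives, upper bound
  have I2u : ∀ x ∈ ball c₀ (2 * s), ∀ j ≤ k, ‖deriv (Q^[j]) x‖ ≤ E j * Pd d c₀ j := by
    intro x hx j
    induction j with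
    | zero =>
      intro _
      have h2 : E 0 = 1 := by rw [hE]; simp
      rw [h2]
      simp [Pd_zero]
    | succ j ih =>
      intro hj
      have ih' := ih (by omega)
      have h1 := I1' x hx j (by omega)
      have hsgj := hsg j (by omega)
      have hu8 := I8 x hx j (by omega)
      rw [hder x hx j (by omega), norm_mul, Pd_succ]
      set u := Q^[j] x
      set z := zz d c₀ j
      have hbj := hb0 j
      have hbdj := hbd j
      have hz0 := norm_nonneg z
      have hq' : ‖deriv q u‖ ≤ s := hqd' u hu8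
      have hum : ‖u‖ ≤ ‖z‖ * (1 + b j) := by
        calc ‖u‖ = ‖(u - z) + z‖ := by congr 1; ring
          _ ≤ ‖u - z‖ + ‖z‖ := norm_add_le _ _
          _ ≤ _ := by linarith
      have h3' : (1 + b j) ^ (d - 1) ≤ 1 + 2 * d * b j := by
        have h4 : ((d - 1 : ℕ) : ℝ) * b j ≤ 1 / 2 := by
          nlinarith
        have h5 := pow_up hbj.le h4
        nlinarith
      have hPj := hP j
      have hEj := hE1 j
      have h7 : ‖(d : ℂ) * u ^ (d - 1) + deriv q u‖ ≤ d * ‖z‖ ^ (d - 1) * (1 + t j) := by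
        have e1 : ‖(d : ℂ) * u ^ (d - 1)‖ = d * ‖u‖ ^ (d - 1) := by
          rw [norm_mul, norm_pow, Complex.norm_natCast]
        have e2 := norm_add_le ((d : ℂ) * u ^ (d - 1)) (deriv q u)
        have e3 : d * ‖u‖ ^ (d - 1) ≤ d * (‖z‖ ^ (d - 1) * (1 + 2 * d * b j)) := by
          calc d * ‖u‖ ^ (d - 1) ≤ d * (‖z‖ * (1 + b j)) ^ (d - 1) := by gcongr
            _ ≤ _ := by
              rw [mul_pow]
              gcongr
        have e4 : d * ‖z‖ ^ (d - 1) * (1 + t j) = d * (‖z‖ ^ (d - 1) * (1 + 2 * d * b j)) +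
            g j * (d * ‖z‖ ^ (d - 1)) := by
          rw [ht]
          ring
        rw [e4]
        linarith
      calc ‖(d : ℂ) * u ^ (d - 1) + deriv q u‖ * ‖deriv (Q^[j]) x‖
          ≤ (d * ‖z‖ ^ (d - 1) * (1 + t j)) * (E j * Pd d c₀ j) := by
            have := ht0 j
            gcongr
        _ = (E j * (1 + t j)) * (d * ‖z‖ ^ (d - 1) * Pd d c₀ j) := by ring
        _ ≤ E (j + 1) * (d * ‖z‖ ^ (d - 1) * Pd d c₀ j) := by
            have h6 := hE3' j
            gcongr
  intro x hx j hj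
  have hPj := hP j
  refine ⟨(I1 x hx j hj).trans (hcoef j), ?_, ?_, ?_⟩
  · refine le_trans ?_ (I2 x hx j hj)
    have := hbs j
    nlinarith
  · refine (I2u x hx j hj).trans ?_
    have := hE2 j
    nlinarith
  · intro hjk
    refine (I1' x hx j hjk).trans ?_
    have h1 := hbd j
    have h2 := hb0 j
    have h3 : b j ≤ 1 / 4 := by nlinarith
    exact mul_le_mul_of_nonneg_right h3 (norm_nonneg _)

end Pool.Agent.Y497.GA
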